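import Pool.Agent.helper96.S5.SpecR

/-!
Row s5:MXC: the complement of the maximal set is cohesive
-/

set_option autoImplicit false

namespace S5

open PF

noncomputable section

open Classical

/-- the binary value depends only on the digits used -/
theorem MXC_congr (P Q : ℕ → Prop) : ∀ m, (∀ i < m, (P i ↔ Q i)) → bv P m = bv Q m := by
  intro m
  induction m with
  | zero => intro _; rfl
  | succ m ih =>
    intro h
    have h1 := ih fun i hi => h i (by omega)
    have h2 : P m ↔ Q m := h m (by omega)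
    simp only [bv, h1, h2]

/-- comparison at the first difference -/
theorem MXC_lt (P Q : ℕ → Prop) (b : ℕ) (hb : bv P b = bv Q b) (h0 : ¬ P b) (h1 : Q b) :
    ∀ m, b + 1 ≤ m → bv P m < bv Q m := by
  intro m hm
  induction m, hm using Nat.le_induction with
  | base => simp only [bv, hb, h0, h1, if_true, if_false]; omega
  | succ m _ ih =>
    have e1 : bv P (m + 1) ≤ 2 * bv P m + 1 := by
      simp only [bv]
      split_ifs <;> omega
    have e2 : 2 * bv Q m ≤ bv Q (m + 1) := by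
      simp only [bv]
      omega
    omega

theorem MXC_Lg_and {P Q : ℕ → Prop} (h : Lg P) (h' : Lg Q) : Lg fun n => P n ∧ Q n := by
  obtain ⟨n, hn⟩ := h
  obtain ⟨n', hn'⟩ := h'
  exact ⟨max n n', fun m hm => ⟨hn m (le_trans (le_max_left _ _) hm),
    hn' m (le_trans (le_max_right _ _) hm)⟩⟩

theorem MXC_Lg_all {P : ℕ → ℕ → Prop} (h : ∀ x, Lg (P x)) (y : ℕ) : Lg fun n => ∀ x ≤ y, P x n := by
  induction y with
  | zero =>
    obtain ⟨n, hn⟩ := h 0
    exact ⟨n, fun m hm x hx => by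
      obtain rfl : x = 0 := by omega
      exact hn m hm⟩
  | succ y ih =>
    obtain ⟨n, hn⟩ := MXC_Lg_and ih (h (y + 1))
    refine ⟨n, fun m hm x hx => ?_⟩
    rcases Nat.lt_or_ge y x with hx' | hx'
    · obtain rfl : x = y + 1 := by omega
      exact (hn m hm).2
    · exact (hn m hm).1 x hx'

theorem MXC_W (i z : ℕ) : Lg fun s => (Wst i s z ↔ We i z) := by
  by_cases h : We i z
  · obtain ⟨s0, hs0⟩ := h
    exact ⟨s0, fun s hs => ⟨fun h' => ⟨s, h'⟩, fun _ => Wst_mono hs hs0⟩⟩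
  · exact ⟨0, fun s _ => ⟨fun h' => ⟨s, h'⟩, fun h' => absurd h' h⟩⟩

/-- the digit `b` is eventually constant if the first `b` digits are -/
theorem MXC_step (hMXA : MXA_stmt) (a : ℕ → ℕ) (ha : ∀ e, Lg fun s => mm s e = a e) (b v : ℕ)
    (hv : Lg fun x => bv (fun i => We i (a x)) b = v) :
    (Lg fun x => We b (a x)) ∨ Lg fun x => ¬ We b (a x) := by
  by_contra hcon
  rw [not_or] at hcon
  obtain ⟨hc1, hc2⟩ := hcon
  obtain ⟨x0, hx0⟩ := hv
  obtain ⟨y, hy, hy'⟩ : ∃ y, max x0 b ≤ y ∧ ¬ We b (a y) := by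
    by_contra h
    exact hc1 ⟨max x0 b, fun n hn => by
      by_contra h'
      exact h ⟨n, hn, h'⟩⟩
  obtain ⟨z, hz, hz'⟩ : ∃ z, y + 1 ≤ z ∧ We b (a z) := by
    by_contra h
    exact hc2 ⟨y + 1, fun n hn h' => h ⟨n, hn, h'⟩⟩
  have hx0y : x0 ≤ y := le_trans (le_max_left _ _) hy
  have hby : b ≤ y := le_trans (le_max_right _ _) hy
  obtain ⟨s0, hs0⟩ := MXC_Lg_and (MXC_Lg_all ha z)
    (MXC_Lg_and (MXC_Lg_all (fun i => MXC_W i (a y)) b) (MXC_Lg_all (fun i => MXC_W i (a z)) b))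
  obtain ⟨s, hs, hzs⟩ : ∃ s, s0 ≤ s ∧ z ≤ s := ⟨max s0 z, le_max_left _ _, le_max_right _ _⟩
  obtain ⟨hm, hWy, hWz⟩ := hs0 s hs
  obtain ⟨hm', -, -⟩ := hs0 (s + 1) (by omega)
  have hmy : mm s y = a y := hm y (by omega)
  have hmz : mm s z = a z := hm z le_rfl
  have hlt : est y (mm s y) s < est y (mm s z) s := by
    rw [hmy, hmz]
    unfold est
    refine MXC_lt _ _ b ?_ ?_ ?_ (y + 1) (by omega)
    · have e1 := MXC_congr (fun i => Wst i s (a y)) (fun i => We i (a y)) b
        fun i hi => hWy i (by omega)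
      have e2 := MXC_congr (fun i => Wst i s (a z)) (fun i => We i (a z)) b
        fun i hi => hWz i (by omega)
      rw [e1, e2, hx0 y hx0y, hx0 z (by omega)]
    · exact fun h => hy' ((hWy b le_rfl).mp h)
    · exact (hWz b le_rfl).mpr hz'
  rcases hMXA.2.2.2 s with ⟨-, h⟩ | ⟨e, -, -, h, he⟩
  · exact absurd hlt (not_lt.mpr (h y z (by omega) hzs))
  · rcases Nat.lt_or_ge y e with hye | hye
    · exact absurd hlt (not_lt.mpr (h y z hye (by omega) hzs))
    · rw [hm e (by omega), hm' e (by omega)] at he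
      exact absurd he (lt_irrefl _)

/-- Row s5:MXC -/
theorem MXC_row (hMXA : MXA_stmt) : MXC_stmt := by
  intro a ha b
  have key : ∀ b, ∃ v, Lg fun x => bv (fun i => We i (a x)) b = v := by
    intro b
    induction b with
    | zero => exact ⟨0, 0, fun _ _ => rfl⟩
    | succ b ih =>
      obtain ⟨v, hv⟩ := ih
      rcases MXC_step hMXA a ha b v hv with h | h
      · obtain ⟨n, hn⟩ := MXC_Lg_and hv h
        refine ⟨2 * v + 1, n, fun m hm => ?_⟩
        obtain ⟨h1, h2⟩ := hn m hm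
        simp only [bv]
        rw [h1, if_pos h2]
      · obtain ⟨n, hn⟩ := MXC_Lg_and hv h
        refine ⟨2 * v, n, fun m hm => ?_⟩
        obtain ⟨h1, h2⟩ := hn m hm
        simp only [bv]
        rw [h1, if_neg h2, add_zero]
  obtain ⟨v, hv⟩ := key b
  exact MXC_step hMXA a ha b v hv

end

end S5
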